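import Pool.Agent.H38.PWS.Stmts

/-!
# Board `pws`, row SEL: a path from `p` back to `p` passes a prime with exponent at least `2`
-/

set_option autoImplicit false

namespace Pool.PWS

open ArithmeticFunction Finset Pool.MKP

private theorem sel_sig {p : ℕ} (hp : p.Prime) : sigma 1 (p ^ 1) = p + 1 := by
  rw [sigma_one_apply_prime_pow hp]
  simp [Finset.sum_range_succ, add_comm]

private theorem sel_aux (n p : ℕ) (hp3 : 3 < p) (hp : p ∈ n.primeFactors)
    (hf : n.factorization p = 1) : ∀ i : ℕ, 1 ≤ i → ∀ z : ℕ, Pp n 0 p i z →
    z < p ∨ ∃ j w : ℕ, 1 ≤ j ∧ j < i ∧ 2 ≤ (it j n).factorization w ∧ Pp n 0 p j w ∧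
      Pp n j w i z := by
  have hpp : p.Prime := Nat.prime_of_mem_primeFactors hp
  have hodd : p % 2 = 1 := by
    rcases hpp.eq_two_or_odd with h | h
    · omega
    · exact h
  intro i
  induction i with
  | zero => intro h; omega
  | succ j ih =>
    intro _ z hz
    cases hz with
    | snoc hv hs =>
      rename_i v
      obtain ⟨hv1, hz1, hz2⟩ := hs
      have hvp : v.Prime := Nat.prime_of_mem_primeFactors hv1
      rcases Nat.eq_zero_or_pos j with hj | hj
      · subst hj
        have hvp' : v = p := by
          cases hv with
          | refl _ => rfl
        subst hvp'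
        rw [it_zero, hf, sel_sig hpp] at hz2
        left
        have h1 : z ≤ v + 1 := Nat.le_of_dvd (by omega) hz2
        have h2 : z ≠ v + 1 := by
          intro h
          rcases hz1.eq_two_or_odd with h3 | h3 <;> omega
        have h3 : z ≠ v := by
          intro h
          subst h
          have h4 : z ∣ 1 := (Nat.dvd_add_right (dvd_refl z)).1 hz2
          have h5 := Nat.le_of_dvd one_pos h4
          omega
        omega
      · rcases ih hj v hv with h | ⟨j', w, h1, h2, h3, h4, h5⟩
        · rcases Nat.lt_or_ge ((it j n).factorization v) 2 with hlt | hge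
          · left
            have h6 : (it j n).factorization v = 1 := by
              have h7 : 0 < (it j n).factorization v := by
                have h8 := Nat.support_factorization (it j n)
                rw [← h8, Finsupp.mem_support_iff] at hv1
                omega
              omega
            rw [h6, sel_sig hvp] at hz2
            have h7 : z ≤ v + 1 := Nat.le_of_dvd (by omega) hz2
            have h8 : z ≠ p := by
              intro h9
              subst h9
              rcases hvp.eq_two_or_odd with h10 | h10 <;> omega
            omega
          · right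
            exact ⟨j, v, hj, by omega, hge, hv, Pp.snoc (Pp.refl hv1) ⟨hv1, hz1, hz2⟩⟩
        · right
          exact ⟨j', w, h1, by omega, h3, h4, Pp.snoc h5 ⟨hv1, hz1, hz2⟩⟩

theorem SEL (_hPTH : PTHStmt) : SELStmt := by
  intro m n p hm _ hp3 hp hf hpath
  rcases sel_aux n p hp3 hp hf m hm p hpath with h | h
  · omega
  · exact h

end Pool.PWS
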